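import Pool.Agent.Run7.h837.Cnt

/-!
# The conjectured bound for `L'/L(σ, χ)` holds outside a power saving exceptional set

For `1/2 < σ₀ < 1` the number of primitive characters `χ` of conductor `q ≤ Q` for which the bound
`|L'/L(σ, χ)| ≤ C/(1-σ) (log q)^{1-σ} (log log q)^{1-σ}` fails for some `σ ∈ [σ₀, 1)` (in
particular those with a zero in `[σ₀, 1)`) is at most `Q^{3 - 2σ₀ + ε}`, while there are about
`Q²` primitive characters of conductor at most `Q`.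
-/

set_option autoImplicit false

namespace Pool.Agent.Results.MP_814e7e_nt.AlmostAllConductors

theorem result (σ₀ : ℝ) (h₀ : 1 / 2 < σ₀) (h₁ : σ₀ < 1) (ε : ℝ) (hε : 0 < ε) :
    ∃ C : ℝ, ∃ Q₀ : ℕ, ∀ Q : ℕ, Q₀ ≤ Q →
      {x : Σ q : ℕ, DirichletCharacter ℂ q | 3 ≤ x.1 ∧ x.1 ≤ Q ∧ x.2.IsPrimitive ∧
        ∃ _ : NeZero x.1, ¬ ∀ σ : ℝ, σ₀ ≤ σ → σ < 1 →
          DirichletCharacter.LFunction x.2 (σ : ℂ) ≠ 0 ∧
          ‖deriv (DirichletCharacter.LFunction x.2) (σ : ℂ) /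
              DirichletCharacter.LFunction x.2 (σ : ℂ)‖ ≤
            C / (1 - σ) * (Real.log (x.1 : ℝ)) ^ (1 - σ) *
              (Real.log (Real.log (x.1 : ℝ))) ^ (1 - σ)}.Finite ∧
      (({x : Σ q : ℕ, DirichletCharacter ℂ q | 3 ≤ x.1 ∧ x.1 ≤ Q ∧ x.2.IsPrimitive ∧
        ∃ _ : NeZero x.1, ¬ ∀ σ : ℝ, σ₀ ≤ σ → σ < 1 →
          DirichletCharacter.LFunction x.2 (σ : ℂ) ≠ 0 ∧
          ‖deriv (DirichletCharacter.LFunction x.2) (σ : ℂ) /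
              DirichletCharacter.LFunction x.2 (σ : ℂ)‖ ≤
            C / (1 - σ) * (Real.log (x.1 : ℝ)) ^ (1 - σ) *
              (Real.log (Real.log (x.1 : ℝ))) ^ (1 - σ)}.ncard : ℕ) : ℝ) ≤
        (Q : ℝ) ^ (3 - 2 * σ₀ + ε) := by
  classical
  obtain ⟨C, -, Q₀, h⟩ := Run7.h837.count_bad h₀ h₁ hε
  refine ⟨C, Q₀, fun Q hQ => ?_⟩
  have hsub : {x : Σ q : ℕ, DirichletCharacter ℂ q | 3 ≤ x.1 ∧ x.1 ≤ Q ∧ x.2.IsPrimitive ∧
        ∃ _ : NeZero x.1, ¬ ∀ σ : ℝ, σ₀ ≤ σ → σ < 1 →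
          DirichletCharacter.LFunction x.2 (σ : ℂ) ≠ 0 ∧
          ‖deriv (DirichletCharacter.LFunction x.2) (σ : ℂ) /
              DirichletCharacter.LFunction x.2 (σ : ℂ)‖ ≤
            C / (1 - σ) * (Real.log (x.1 : ℝ)) ^ (1 - σ) *
              (Real.log (Real.log (x.1 : ℝ))) ^ (1 - σ)} ⊆
      (((Run7.h837.Fam Q).filter (fun x => ∃ _ : NeZero x.1, ¬ ∀ σ : ℝ, σ₀ ≤ σ → σ < 1 →
        DirichletCharacter.LFunction x.2 (σ : ℂ) ≠ 0 ∧
          ‖deriv (DirichletCharacter.LFunction x.2) (σ : ℂ) /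
            DirichletCharacter.LFunction x.2 (σ : ℂ)‖ ≤
            C / (1 - σ) * Real.log x.1 ^ (1 - σ) *
              Real.log (Real.log x.1) ^ (1 - σ)) :
                Finset (Σ q : ℕ, DirichletCharacter ℂ q)) : Set _) := by
    rintro x ⟨h3, hle, hp, hbad⟩
    rw [Finset.mem_coe, Finset.mem_filter, Run7.h837.mem_Fam]
    exact ⟨⟨⟨by omega, hle⟩, hp⟩, hbad⟩
  refine ⟨(Finset.finite_toSet _).subset hsub, ?_⟩
  refine le_trans ?_ (h Q hQ)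
  have h1 := Set.ncard_le_ncard hsub (Finset.finite_toSet _)
  rw [Set.ncard_coe_finset] at h1
  exact_mod_cast h1

end Pool.Agent.Results.MP_814e7e_nt.AlmostAllConductors
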