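import Pool.Agent.Run7.h837.CntF

/-!
# The logarithmic derivative at `σ` for almost all characters of every modulus

For `1/2 < σ₀ < 1`, every modulus `q ≥ q₀` and every `m` with `2 ≤ m ≤ log q`, the bound
`|L'/L(σ, χ)| ≤ C/(1-σ) (m log q)^{1-σ}` holds for all `σ ∈ [σ₀, 1)` and all nonprincipal
characters `χ` modulo `q` (primitive or not) outside a set of at most
`φ(q) exp(-c log m log q / log log q)` characters.  With `m = log log q` this is the bound
conjectured for all primitive characters.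
-/

set_option autoImplicit false

namespace Pool.Agent.Results.MP_814e7e_nt.EveryModulus

theorem result (σ₀ : ℝ) (h₀ : 1 / 2 < σ₀) (h₁ : σ₀ < 1) :
    ∃ C c : ℝ, 0 < c ∧ ∃ q₀ : ℕ, ∀ (q : ℕ) [NeZero q], q₀ ≤ q →
      ∀ m : ℝ, 2 ≤ m → m ≤ Real.log (q : ℝ) →
        (({χ : DirichletCharacter ℂ q | χ ≠ 1 ∧ ¬ ∀ σ : ℝ, σ₀ ≤ σ → σ < 1 →
            DirichletCharacter.LFunction χ (σ : ℂ) ≠ 0 ∧
            ‖deriv (DirichletCharacter.LFunction χ) (σ : ℂ) /
                DirichletCharacter.LFunction χ (σ : ℂ)‖ ≤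
              C / (1 - σ) * (m * Real.log (q : ℝ)) ^ (1 - σ)}.ncard : ℕ) : ℝ) ≤
          (Nat.totient q : ℝ) * Real.exp (-(c * (Real.log (q : ℝ) /
            Real.log (Real.log (q : ℝ)) * Real.log m))) := by
  classical
  obtain ⟨C, c, -, hc, q₀, h⟩ := Run7.h837.count_fix h₀ h₁
  refine ⟨C, c, hc, q₀, fun q _ hq m hm hmq => ?_⟩
  have e : {χ : DirichletCharacter ℂ q | χ ≠ 1 ∧ ¬ ∀ σ : ℝ, σ₀ ≤ σ → σ < 1 →
            DirichletCharacter.LFunction χ (σ : ℂ) ≠ 0 ∧
            ‖deriv (DirichletCharacter.LFunction χ) (σ : ℂ) /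
                DirichletCharacter.LFunction χ (σ : ℂ)‖ ≤
              C / (1 - σ) * (m * Real.log (q : ℝ)) ^ (1 - σ)} =
      (((Run7.h837.npr q).filter (fun χ => ¬ ∀ σ : ℝ, σ₀ ≤ σ → σ < 1 →
        DirichletCharacter.LFunction χ (σ : ℂ) ≠ 0 ∧
          ‖deriv (DirichletCharacter.LFunction χ) (σ : ℂ) /
            DirichletCharacter.LFunction χ (σ : ℂ)‖ ≤
            C / (1 - σ) * (m * Real.log q) ^ (1 - σ)) :
              Finset (DirichletCharacter ℂ q)) : Set _) := by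
    ext χ
    rw [Finset.mem_coe, Finset.mem_filter, Run7.h837.mem_npr, Set.mem_ofPred_eq]
  rw [e, Set.ncard_coe_finset]
  exact h q hq m hm hmq

end Pool.Agent.Results.MP_814e7e_nt.EveryModulus
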